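import Pool.Agent.Lib.MP_3145b1_co.ZC.Cls
import Pool.Agent.Lib.MP_3145b1_co.MS.Asm2
import Pool.Agent.Lib.MP_3145b1_co.HS.HAd
import Pool.Agent.Lib.MP_3145b1_co.HS.HC1
import Pool.Agent.Lib.MP_3145b1_co.HS.HC2
import Pool.Agent.Lib.MP_3145b1_co.HS.HCg
import Pool.Agent.Lib.MP_3145b1_co.HS.HEn
import Pool.Agent.Lib.MP_3145b1_co.HS.HGI
import Pool.Agent.Lib.MP_3145b1_co.HS.HGK
import Pool.Agent.Lib.MP_3145b1_co.HS.HGt
import Pool.Agent.Lib.MP_3145b1_co.HS.HLO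
import Pool.Agent.Lib.MP_3145b1_co.HS.HLS
import Pool.Agent.Lib.MP_3145b1_co.HS.HLv
import Pool.Agent.Lib.MP_3145b1_co.HS.HNd
import Pool.Agent.Lib.MP_3145b1_co.HS.HP1
import Pool.Agent.Lib.MP_3145b1_co.HS.HPt
import Pool.Agent.Lib.MP_3145b1_co.HS.HSm

/-!
# MP_3145b1_co, final composition theorems: assembly
-/

set_option autoImplicit false

namespace Pool.Agent.MP3145b1.ZC

open Finset Pool.Agent.MP3145b1 Pool.Agent.MP3145b1.RC Pool.Agent.MP3145b1.RD Pool.Agent.MP3145b1.RT Pool.Agent.MP3145b1.UM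
  Pool.Agent.MP3145b1.LD Pool.Agent.MP3145b1.AG

theorem hNd : HS.S_HNd :=
  HS.rHNd rTPar (HS.rHPt rTPtw HS.rHLv) (HS.rHP1 rTPar UI.rUHar HS.rHLv)

theorem hGt : HS.S_HGt :=
  HS.rHGt (UI.rUTel (rGTw rMTg)) (UI.rUInf rTPar) (UI.rUChg rTPar) hNd (HS.rHCg rTPar)
    (HS.rHC1 UI.rUCls HS.rHLv) (HS.rHC2 UI.rUCls HS.rHLv)

/-- Boolean functions of `K` halfspaces as gates -/
theorem hEn : HS.S_HEn :=
  HS.rHEn HS.rHAd (HS.rHGK (HS.rHGI UI.rUEn UI.rUTrf hGt) (HS.rHSm (HS.rHLS (HS.rHLO rTPar)))) MS.rMCo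

/-- the constants -/
private theorem Asm_const {C1 : ℝ} (hC1 : 0 < C1) {w : ℕ} (hw : 1 ≤ w) {s c : ℝ} (hs : 0 ≤ s) (hc : 0 ≤ c) :
    C1 * (w + Real.log (2 + s) + 11200 * (1 + c)) ≤ 11201 * C1 * (w + Real.log (2 + s) + c) := by
  have h1 : 0 ≤ Real.log (2 + s) := Real.log_nonneg (by linarith)
  have h2 : (1 : ℝ) ≤ w := by exact_mod_cast hw
  nlinarith [mul_nonneg hC1.le h1, mul_nonneg hC1.le hc, mul_le_mul_of_nonneg_left h2 hC1.le]

/-- **The composition theorem for the entropy.** -/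
theorem ent_main : ∃ C : ℝ, 0 < C ∧
    (∀ (N : ℕ) (a : Fin N → ℝ) (θ : ℝ), specEntropy (ltf a θ) ≤ C * influence (ltf a θ)) ∧
    ∀ w : ℕ, 1 ≤ w → ∀ s c : ℝ, 0 ≤ s → 0 ≤ c → ∀ (N : ℕ) (f : (Fin N → Bool) → ℝ), RZ w s c f →
      ∑ S ∈ (univ : Finset (Finset (Fin N))).erase ∅, coeff f S ^ 2 * Real.logb 2 (1 / coeff f S ^ 2) ≤
        C * (w + Real.log (2 + s) + c) * (influence f - (1 - coeff f ∅ ^ 2)) ∧
      specEntropy f ≤ C * (w + Real.log (2 + s) + c) * influence f ∧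
      ∃ S : Finset (Fin N), (2 : ℝ) ^ (-(C * (w + Real.log (2 + s) + c) * influence f / 2)) ≤ |coeff f S| := by
  obtain ⟨C1, hC1, h1⟩ := fin3
  have hl2 : Real.log 2 ≤ 1 := by
    have := Real.log_two_lt_d9
    linarith
  refine ⟨11201 * C1, by linarith, fun N a θ => ?_, fun w hw s c hs hc N f hf => ?_⟩
  · have h := (h1 1 le_rfl 0 0 le_rfl le_rfl N (ltf a θ) (RG_RH 0 0 (Ltf_mem 1 a θ))).2.1
    refine h.trans (mul_le_mul_of_nonneg_right ?_ (inf_nonneg _))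
    push_cast
    rw [add_zero, add_zero]
    nlinarith
  · have hf' := RZ_RH hEn hc hf
    have hA := Asm_const hC1 hw hs hc
    obtain ⟨e1, e2, S, e3⟩ := h1 w hw s (11200 * (1 + c)) hs (by linarith) N f hf'
    refine ⟨e1.trans (mul_le_mul_of_nonneg_right hA (gap_nonneg (RH_pm hf'))),
      e2.trans (mul_le_mul_of_nonneg_right hA (inf_nonneg f)), S, le_trans ?_ e3⟩
    refine Real.rpow_le_rpow_of_exponent_le (by norm_num) ?_
    have := mul_le_mul_of_nonneg_right hA (inf_nonneg f)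
    linarith

/-- **The composition theorem for the min-entropy.** -/
theorem min_main : ∃ C : ℝ, 0 < C ∧
    ∀ w : ℕ, 1 ≤ w → ∀ s c : ℝ, 0 ≤ s → 0 ≤ c → ∀ (N : ℕ) (f : (Fin N → Bool) → ℝ), UZ w s c f →
      (0 < 1 - coeff f ∅ ^ 2 → ∃ S : Finset (Fin N), S ≠ ∅ ∧ coeff f S ≠ 0 ∧
        (1 - coeff f ∅ ^ 2) * Real.log (1 / coeff f S ^ 2) ≤
          C * (w + Real.log (2 + s) + c) * (influence f - (1 - coeff f ∅ ^ 2))) ∧
      ∃ S : Finset (Fin N), Real.exp (-(C * (w + Real.log (2 + s) + c) * influence f)) ≤ |coeff f S| := by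
  obtain ⟨C1, hC1, h1⟩ := fin5
  refine ⟨11201 * C1, by linarith, fun w hw s c hs hc N f hf => ?_⟩
  have hf' := UZ_UD hEn hc hf
  have hA := Asm_const hC1 hw hs hc
  obtain ⟨e1, S, e3⟩ := h1 w hw s (11200 * (1 + c)) hs (by linarith) N f hf'
  refine ⟨fun hV => ?_, S, le_trans ?_ e3⟩
  · obtain ⟨S', a1, a2, a3⟩ := e1 hV
    exact ⟨S', a1, a2, a3.trans (mul_le_mul_of_nonneg_right hA (gap_nonneg (UD_pm hf')))⟩
  · refine Real.exp_le_exp.2 ?_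
    have := mul_le_mul_of_nonneg_right hA (inf_nonneg f)
    linarith

end Pool.Agent.MP3145b1.ZC
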