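import Pool.Agent.Lib.MP_3145b1_co.GP.Cor
import Pool.Agent.Lib.MP_3145b1_co.AG.Asm

/-!
# MP_3145b1_co, ZC: two kinds of leaves for the read-once compositions

`mom_shp`: functions whose second moment is at most `exp c` times `influence - Var` satisfy the sharp inequality with `42 c`.
`par_hq`: functions whose restrictions to the blocks of a partition into `d` blocks satisfy the plain inequality with the
constant `c ≥ log d` satisfy, with all their restrictions, the plain inequality with the constant `3 + 6 c`.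
-/

set_option autoImplicit false

namespace Pool.Agent.MP3145b1.ZC

open Finset Pool.Agent.MP3145b1 Pool.Agent.MP3145b1.RC Pool.Agent.MP3145b1.RD Pool.Agent.MP3145b1.RT Pool.Agent.MP3145b1.UM Pool.Agent.MP3145b1.LD Pool.Agent.MP3145b1.AG

private theorem lf_hh (t : ℝ) : t * Real.logb 2 (1 / t) * Real.log 2 = hh t := by
  have hl : 0 < Real.log 2 := Real.log_pos (by norm_num)
  unfold Real.logb hh Real.negMulLog
  rw [one_div, Real.log_inv]
  field_simp

theorem mom_shp {N : ℕ} (f : (Fin N → Bool) → ℝ) (c : ℝ) (hc : 0 ≤ c) (hv : ∀ x, f x = 1 ∨ f x = -1)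
    (h : GP.M2 f ≤ Real.exp c * (influence f - (1 - coeff f ∅ ^ 2))) : Shp (42 * c) f := by
  have hl : 0 < Real.log 2 := Real.log_pos (by norm_num)
  have hsum : (∑ S ∈ (univ : Finset (Finset (Fin N))).erase ∅,
      coeff f S ^ 2 * Real.logb 2 (1 / coeff f S ^ 2)) * Real.log 2 =
      ∑ S ∈ (univ : Finset (Finset (Fin N))).erase ∅, hh (coeff f S ^ 2) := by
    rw [Finset.sum_mul]
    exact Finset.sum_congr rfl fun S _ => lf_hh _
  unfold Shp
  rw [← hsum]
  have h1 := mul_le_mul_of_nonneg_right (GP.sharp_all f hv) hl.le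
  refine h1.trans ?_
  obtain ⟨hD0, hMD⟩ := GP.two_D f hv
  set D := influence f - (1 - coeff f ∅ ^ 2) with hD
  rcases hD0.eq_or_lt with h0 | h0
  · rw [← h0]; simp
  · have h2 : Real.logb 2 (GP.M2 f / D) * Real.log 2 = Real.log (GP.M2 f / D) := by
      unfold Real.logb
      field_simp
    have h3 : Real.log (GP.M2 f / D) ≤ c := by
      rw [← Real.log_exp c]
      apply Real.log_le_log (div_pos (by linarith) h0)
      rw [div_le_iff₀ h0]
      exact h
    rw [mul_assoc, h2]
    have h4 : 42 * D * Real.log (GP.M2 f / D) ≤ 42 * D * c :=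
      mul_le_mul_of_nonneg_left h3 (by positivity)
    linarith

theorem par_hq {N d : ℕ} (f : (Fin N → Bool) → ℝ) (hv : ∀ x, f x = 1 ∨ f x = -1) (bl : Fin N → Fin d)
    (c : ℝ) (hc : 0 ≤ c) (hd : Real.log d ≤ c)
    (h : ∀ (j : Fin d) (A : Finset (Fin N)) (y : Fin N → Bool), (∀ i ∈ A, bl i = j) →
      specEntropy (Q.blk A y f) ≤ c * influence (Q.blk A y f)) : Hq (3 + 6 * c) f := by
  intro A y
  have hl1 : 0.6931471803 < Real.log 2 := Real.log_two_gt_d9
  have hl : 0 < Real.log 2 := by linarith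
  have hg : ∀ x, Q.blk A y f x = 1 ∨ Q.blk A y f x = -1 := fun x => hv _
  have hk0 : 0 ≤ Real.logb 2 d := by
    rcases Nat.eq_zero_or_pos d with h0 | h0
    · rw [h0]; simp
    · exact Real.logb_nonneg (by norm_num) (by exact_mod_cast h0)
  have hk1 : ((⌈Real.logb 2 d⌉₊ : ℕ) : ℝ) ≤ c / Real.log 2 + 1 := by
    have h1 := Nat.ceil_lt_add_one hk0
    have h2 : Real.logb 2 d ≤ c / Real.log 2 := by
      unfold Real.logb
      exact div_le_div_of_nonneg_right hd hl.le
    linarith
  have hdk : d ≤ 2 ^ ⌈Real.logb 2 d⌉₊ := by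
    rcases Nat.eq_zero_or_pos d with h0 | h0
    · rw [h0]; positivity
    · have h1 : (d : ℝ) ≤ (2 : ℝ) ^ ((⌈Real.logb 2 d⌉₊ : ℕ) : ℝ) := by
        calc (d : ℝ) = (2 : ℝ) ^ Real.logb 2 d :=
              (Real.rpow_logb (by norm_num) (by norm_num) (by exact_mod_cast h0)).symm
          _ ≤ _ := Real.rpow_le_rpow_of_exponent_le (by norm_num) (Nat.le_ceil _)
      rw [Real.rpow_natCast] at h1
      exact_mod_cast h1
  have hcl := Q.closure (Q.blk A y f) hg bl ⌈Real.logb 2 d⌉₊ hdk c (by
    intro j x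
    have he : Q.blk (Q.blo bl j) x (Q.blk A y f) =
        Q.blk (A ∩ Q.blo bl j) (fun i => if i ∈ A then x i else y i) f := by
      funext z
      unfold Q.blk
      congr 1
      funext i
      by_cases h1 : i ∈ A
      · by_cases h2 : i ∈ Q.blo bl j
        · simp [h1, h2]
        · simp [h1, h2]
      · simp [h1]
    rw [he]
    apply h j
    intro i hi
    have h3 := (Finset.mem_inter.1 hi).2
    unfold Q.blo at h3
    exact (Finset.mem_filter.1 h3).2)
  refine hcl.trans (mul_le_mul_of_nonneg_right ?_ (influence_nonneg _))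
  have h5 : 2 / Real.log 2 ≤ 3 := by
    rw [div_le_iff₀ hl]; linarith
  have h6 : 0 ≤ 2 / Real.log 2 := by positivity
  have h7 : 2 / Real.log 2 * (⌈Real.logb 2 d⌉₊ : ℕ) ≤ 2 / Real.log 2 * (c / Real.log 2 + 1) :=
    mul_le_mul_of_nonneg_left hk1 h6
  have h8 : 2 / Real.log 2 * (c / Real.log 2) ≤ 5 * c := by
    rw [div_mul_div_comm, div_le_iff₀ (mul_pos hl hl)]
    have h9 : (2 : ℝ) ≤ 5 * (Real.log 2 * Real.log 2) := by nlinarith
    nlinarith
  linarith

end Pool.Agent.MP3145b1.ZC
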