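import Pool.Agent.Lib.MP_3145b1_co.ZC.Gt
import Pool.Agent.Lib.MP_3145b1_co.ZC.Lf
import Pool.Agent.Lib.MP_3145b1_co.HS.Spec
import Pool.Agent.Lib.MP_3145b1_co.MS.Asm
import Pool.Agent.Lib.MP_3145b1_co.LD.Asm

/-!
# MP_3145b1_co, final composition theorems: the classes `RZ` and `UZ` are contained in `RH` and `UD`
-/

set_option autoImplicit false

namespace Pool.Agent.MP3145b1.ZC

open Finset Pool.Agent.MP3145b1 Pool.Agent.MP3145b1.RC Pool.Agent.MP3145b1.RD Pool.Agent.MP3145b1.RT Pool.Agent.MP3145b1.UM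
  Pool.Agent.MP3145b1.LD Pool.Agent.MP3145b1.AG

theorem Shp_mono {a b : ℝ} {N : ℕ} {f : (Fin N → Bool) → ℝ} (hv : ∀ x, f x = 1 ∨ f x = -1) (hab : a ≤ b)
    (h : Shp a f) : Shp b f :=
  le_trans h (mul_le_mul_of_nonneg_right hab (gap_nonneg hv))

theorem Hq_mono {a b : ℝ} {N : ℕ} {f : (Fin N → Bool) → ℝ} (hab : a ≤ b) (h : Hq a f) : Hq b f :=
  fun A y => (h A y).trans (mul_le_mul_of_nonneg_right hab (inf_nonneg _))

theorem Pm_mono {a b : ℝ} {N : ℕ} {f : (Fin N → Bool) → ℝ} (hab : a ≤ b) (h : Pm a f) : Pm b f := by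
  intro hV
  obtain ⟨S, h1, h2, h3⟩ := h hV
  exact ⟨S, h1, h2, h3.trans (mul_le_mul_of_nonneg_right hab (inf_nonneg _))⟩

theorem pb_mem {N : ℕ} {u : ℕ → (Fin N → Bool) → ℝ} (hu : ∀ i x, u i x = 1 ∨ u i x = -1) (i : ℕ) :
    0 ≤ pb u i ∧ pb u i ≤ 1 := by
  have h1 : ∑ S : Finset (Fin N), coeff (u i) S ^ 2 = 1 := by
    rw [Q.parseval]
    have : (fun x => u i x ^ 2) = fun _ => (1 : ℝ) := by
      funext x
      rcases hu i x with h | h <;> rw [h] <;> norm_num
    rw [this]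
    exact Q.mean_const 1
  have h2 : coeff (u i) ∅ ^ 2 ≤ 1 := by
    rw [← h1]
    exact Finset.single_le_sum (f := fun S : Finset (Fin N) => coeff (u i) S ^ 2)
      (fun S _ => sq_nonneg _) (Finset.mem_univ ∅)
  have h3 := abs_le_of_sq_le_sq' (a := coeff (u i) ∅) (b := 1) (by linarith) zero_le_one
  unfold pb
  constructor
  · linarith [h3.1]
  · linarith [h3.2]

/-- the constant for functions of halfspaces -/
theorem half_const {K D : ℕ} {L c : ℝ} (hc : 0 ≤ c) (hK : 1 ≤ K) (hL : 1 ≤ L) (hD : 1 ≤ D)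
    (h : Real.log (K * L * D) ≤ c) :
    200 + 14 * Real.log (32 * ((K : ℝ) * (⌈L⌉₊ : ℕ))) + 7 * Real.log ((D : ℝ) + 1) ≤ 11200 * (1 + c) := by
  have hK' : (1 : ℝ) ≤ K := by exact_mod_cast hK
  have hD' : (1 : ℝ) ≤ D := by exact_mod_cast hD
  have hL0 : (⌈L⌉₊ : ℝ) ≤ 2 * L := by
    have := Nat.ceil_lt_add_one (show 0 ≤ L by linarith)
    linarith
  have hL1 : (0 : ℝ) < (⌈L⌉₊ : ℝ) := by
    have := Nat.le_ceil L
    linarith
  have hKL : (1 : ℝ) ≤ (K : ℝ) * L := by nlinarith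
  have e1 : Real.log ((K : ℝ) * L * D) = Real.log ((K : ℝ) * L) + Real.log D :=
    Real.log_mul (by positivity) (by positivity)
  have h1 : 0 ≤ Real.log ((K : ℝ) * L) := Real.log_nonneg hKL
  have h2 : 0 ≤ Real.log (D : ℝ) := Real.log_nonneg hD'
  have e2 : Real.log (32 * ((K : ℝ) * (⌈L⌉₊ : ℝ))) ≤ Real.log 64 + Real.log ((K : ℝ) * L) := by
    rw [← Real.log_mul (by norm_num) (by positivity)]
    refine Real.log_le_log (by positivity) ?_
    nlinarith
  have h3 : Real.log 64 ≤ 63 := by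
    have := Real.log_le_sub_one_of_pos (show (0 : ℝ) < 64 by norm_num)
    linarith
  have h4 : Real.log ((D : ℝ) + 1) ≤ 1 + Real.log D := by
    have e3 : Real.log ((D : ℝ) + 1) ≤ Real.log (2 * D) := Real.log_le_log (by positivity) (by linarith)
    have e4 : Real.log (2 * (D : ℝ)) = Real.log 2 + Real.log D := Real.log_mul (by norm_num) (by positivity)
    have e5 : Real.log 2 ≤ 1 := by
      have := Real.log_two_lt_d9
      linarith
    linarith
  rw [e1] at h
  nlinarith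

/-- natural ratio -/
theorem half_ceil {L : ℝ} {K M : ℕ} {b : ℕ → ℕ → ℝ} {cl : ℕ → ℕ} {ρ : ℕ → ℝ}
    (hb : ∀ j v i, j < K → v < M → i < M → v ≠ i → cl v = cl i → ρ v ≤ ρ i → |b j i| ≤ L * |b j v|) :
    ∀ j v i, j < K → v < M → i < M → v ≠ i → cl v = cl i → ρ v ≤ ρ i → |b j i| ≤ (⌈L⌉₊ : ℕ) * |b j v| :=
  fun j v i h1 h2 h3 h4 h5 h6 =>
    (hb j v i h1 h2 h3 h4 h5 h6).trans (mul_le_mul_of_nonneg_right (Nat.le_ceil L) (abs_nonneg _))

theorem sym_const {d : ℕ} {c : ℝ} (hc : 0 ≤ c) (h : Real.log (d : ℝ) ≤ c) :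
    11200 + 4 * Real.log d ≤ 11200 * (1 + c) := by
  nlinarith

/-- **The class `RZ` is contained in the class `RH`.** -/
theorem RZ_RH (hS : HS.S_HEn) {w : ℕ} {s c : ℝ} (hc : 0 ≤ c) {N : ℕ} {f : (Fin N → Bool) → ℝ} (h : RZ w s c f) :
    RH w s (11200 * (1 + c)) f := by
  induction h with
  | leaf f hv hf => exact RH.leaf f hv (Shp_mono hv (by linarith) hf)
  | mom f hv hf => exact RH.leaf f hv (Shp_mono hv (by linarith) (mom_shp f c hc hv hf))
  | her f hv d hd bl hf => exact RH.her f hv (Hq_mono (by linarith) (par_hq f hv bl c hc hd hf))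
  | neg f _ ih => exact RH.neg f ih
  | gen P u hP hd _ M φ hφ ih =>
    exact RH.gen P u hP hd ih M φ (Hd_mono (pb_mem (fun i => RH_pm (ih i))) (by linarith) (Hd_Hg hφ))
  | arb P u hP hd _ M hs φ ih => exact RH.arb P u hP hd ih M hs φ
  | half P u hP hd _ M K D L hK hL hD hlog b θ cl ρ hcl hb φ hφ ih =>
    have hp := pb_mem (fun i => RH_pm (ih i))
    exact RH.gen P u hP hd ih M φ (Hd_mono hp (half_const hc hK hL hD hlog)
      (hS K ⌈L⌉₊ D M b θ cl ρ φ (pb u) hK (Nat.one_le_ceil_iff.2 (by linarith)) hp hcl (half_ceil hb) hφ))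
  | sym P u hP hd _ M d hd1 hlog cl hcl φ hφ ih =>
    have hp := pb_mem (fun i => RH_pm (ih i))
    exact RH.gen P u hP hd ih M φ (Hd_mono hp (sym_const hc hlog) (MS.mEn d M cl φ (pb u) hd1 hcl hφ hp))
  | tree P u hP hd _ T hT ih => exact RK.RH_tree_gate w s _ N P u hP hd ih T hT
  | prog P u hP hd _ n σ v x0 o hr ih => exact RH.prog P u hP hd ih n σ v x0 o hr

theorem UD_pm {w : ℕ} {s c : ℝ} {N : ℕ} {f : (Fin N → Bool) → ℝ} (h : UD w s c f) :
    ∀ x, f x = 1 ∨ f x = -1 := by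
  induction h with
  | leaf f hv _ => exact hv
  | neg f _ ih =>
    intro x
    rcases ih x with h | h
    · right; show -f x = -1; rw [h]
    · left; show -f x = 1; rw [h]; norm_num
  | una => intro x; dsimp only; split_ifs <;> simp
  | dun => intro x; dsimp only; split_ifs <;> simp
  | gen => intro x; dsimp only; split_ifs <;> simp
  | arb => intro x; dsimp only; split_ifs <;> simp
  | thr => intro x; dsimp only; split_ifs <;> simp
  | sym => intro x; dsimp only; split_ifs <;> simp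
  | prog => intro x; dsimp only; split_ifs <;> simp

/-- **The class `UZ` is contained in the class `UD`.** -/
theorem UZ_UD (hS : HS.S_HEn) {w : ℕ} {s c : ℝ} (hc : 0 ≤ c) {N : ℕ} {f : (Fin N → Bool) → ℝ} (h : UZ w s c f) :
    UD w s (11200 * (1 + c)) f := by
  induction h with
  | leaf f hv hf => exact UD.leaf f hv (Pm_mono (by linarith) hf)
  | ptf f g hv d hd hg hfg h0 => exact UD.leaf f hv (Pm_mono (by nlinarith) (lPf N d f g hv hg hfg h0))
  | neg f _ ih => exact UD.neg f ih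
  | una P u hP hd _ M φ hφ ih => exact UD.una P u hP hd ih M φ hφ
  | dun P u hP hd _ M φ hφ ih => exact UD.dun P u hP hd ih M φ (Du_of (by linarith) hφ)
  | gen P u hP hd _ M φ hφ ih =>
    exact UD.gen P u hP hd ih M φ (Hd_mono (pb_mem (fun i => UD_pm (ih i))) (by linarith) (Hd_Hg hφ))
  | arb P u hP hd _ M hs φ ih => exact UD.arb P u hP hd ih M hs φ
  | half P u hP hd _ M K D L hK hL hD hlog b θ cl ρ hcl hb φ hφ ih =>
    have hp := pb_mem (fun i => UD_pm (ih i))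
    exact UD.gen P u hP hd ih M φ (Hd_mono hp (half_const hc hK hL hD hlog)
      (hS K ⌈L⌉₊ D M b θ cl ρ φ (pb u) hK (Nat.one_le_ceil_iff.2 (by linarith)) hp hcl (half_ceil hb) hφ))
  | sym P u hP hd _ M d hd1 hlog cl hcl φ hφ ih =>
    have hp := pb_mem (fun i => UD_pm (ih i))
    exact UD.gen P u hP hd ih M φ (Hd_mono hp (sym_const hc hlog) (MS.mEn d M cl φ (pb u) hd1 hcl hφ hp))
  | tree P u hP hd _ T hT ih =>
    exact RK.tree_gate (fun P u hP hd hu n σ v x0 o hr => UD.prog P u hP hd hu n σ v x0 o hr) P u hP hd ih T hT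
  | prog P u hP hd _ n σ v x0 o hr ih => exact UD.prog P u hP hd ih n σ v x0 o hr

end Pool.Agent.MP3145b1.ZC
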