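import Pool.Agent.Lib.MP_3145b1_co.AG.Asm5
import Pool.Agent.Lib.MP_3145b1_co.GP.Cor

/-!
# MP_3145b1_co, final composition theorems: the classes of functions

Gates are functions `φ` of finite sets `U` of natural numbers (the set of the inputs which are true, that is, have the value `-1`); `M` is the number of inputs.
-/

set_option autoImplicit false

namespace Pool.Agent.MP3145b1.ZC

open Finset Pool.Agent.MP3145b1 Pool.Agent.MP3145b1.RC Pool.Agent.MP3145b1.RT Pool.Agent.MP3145b1.UM Pool.Agent.MP3145b1.AG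

/-- the value of the gate `φ`: `-1` if it is true, `1` otherwise -/
noncomputable def gv (φ : Finset ℕ → Bool) (U : Finset ℕ) : ℝ := if φ U then -1 else 1

/-- Independent bits, `p i` = probability that the bit `i` is false. The bits of `J` are free, the other ones are fixed (true exactly on `U`).
`gc p φ J U T` is the coefficient at `T ⊆ J` of this restriction of the gate `φ`: the mean over the bits of `J \ T` of the iterated half difference over the bits of `T`.
The square of the coefficient in the orthonormal basis is `wt p T * gc p φ J U T ^ 2`, `wt p T` the product of the variances `4 (p i) (1 - p i)` of the bits of `T`. -/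
noncomputable def gc (p : ℕ → ℝ) (φ : Finset ℕ → Bool) (J U T : Finset ℕ) : ℝ :=
  ∑ S ∈ (J \ T).powerset, (∏ i ∈ S, (1 - p i)) * (∏ i ∈ (J \ T) \ S, p i) *
    ∑ R ∈ T.powerset, (-1) ^ R.card / 2 ^ T.card * gv φ (U ∪ S ∪ R)

/-- The gate `φ` with `M` inputs and all its restrictions satisfy the entropy-influence inequality with the constant `c` for the product measure with the
probabilities `p`: `∑_{T ≠ ∅} x_T log (wt_T / x_T) ≤ c ∑_T |T| x_T`, `x_T = wt_T * gc_T ^ 2` -/
def Hg (c : ℝ) (p : ℕ → ℝ) (M : ℕ) (φ : Finset ℕ → Bool) : Prop := ∀ J U : Finset ℕ, J ⊆ range M → U ⊆ range M \ J →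
  ∑ T ∈ J.powerset.erase ∅, wt p T * hh (gc p φ J U T ^ 2) ≤
    c * ∑ T ∈ J.powerset, (T.card : ℝ) * (wt p T * gc p φ J U T ^ 2)

/-- the probability that the input `i` of the gate `φ` is pivotal -/
noncomputable def pv (p : ℕ → ℝ) (M : ℕ) (φ : Finset ℕ → Bool) (i : ℕ) : ℝ :=
  ∑ S ∈ ((range M).erase i).powerset, (∏ j ∈ S, (1 - p j)) * (∏ j ∈ (range M).erase i \ S, p j) *
    (if φ S = φ (insert i S) then 0 else 1)

/-- the mean of the derivative of the gate `φ` in the direction `i` -/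
noncomputable def dv (p : ℕ → ℝ) (M : ℕ) (φ : Finset ℕ → Bool) (i : ℕ) : ℝ :=
  ∑ S ∈ ((range M).erase i).powerset, (∏ j ∈ S, (1 - p j)) * (∏ j ∈ (range M).erase i \ S, p j) *
    ((gv φ S - gv φ (insert i S)) / 2)

/-- **Read-once compositions (entropy)**: the smallest class of functions `f : (Fin N → Bool) → ℝ` which contains every `f` with values `1`, `-1` such that
(leaf) `∑_{S ≠ ∅} f^(S)^2 log (1/f^(S)^2) ≤ c (I(f) - Var f)` (natural logarithm; the constants and the variables are such functions), or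
(mom) `∑_S |S| (|S| - 1) f^(S)^2 ≤ e^c (I(f) - Var f)` (the left side is the mean of `s (s - 1)`, `s` the sensitivity; all functions of degree at most `e^c` are such functions), or
(her) for a partition of the variables into `d ≤ e^c` blocks all restrictions `g` of `f` to subsets of the blocks satisfy `Ent(g) ≤ c I(g)`
(`g = Q.blk A y f`: the variables of `A`, a subset of a block, are free, the other ones are fixed as in `y`; `d = 1`: all restrictions of `f`);
with `f` also (neg) `-f`, and with functions `u i` (`i : ℕ`) of pairwise disjoint sets `P i` of variables also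
(gen) every gate `φ` of the `u i`, `i < M`, which satisfies, with its restrictions, the entropy-influence inequality with the constant `c` for the biases of the `u i` (`Hg`);
(arb) EVERY gate `φ` of the `u i`, `i < M`, if the sum of the variances of these `u i` is at most `s`;
(half) every Boolean function of `K` halfspaces `θ j ≤ ∑ b j i` (sum over the `i < M` with `u i = -1`), if the inputs are divided into `D` classes, each with an order `ρ` such that
`|b j i| ≤ L |b j v|` if `v` is before `i` in the same class, and `K L D ≤ e^c` (for one halfspace: `K = L = D = 1`, order by decreasing `|b i|`);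
(sym) every gate `φ` which depends only on the numbers of true inputs in each of `d ≤ e^c` classes of inputs;
(tree) every decision tree of rank at most `w - 2` which queries the `u i`;
(prog) every function computed by a read-once branching program with `w` states per level whose nodes read the values of the `u i`. -/
inductive RZ (w : ℕ) (s c : ℝ) {N : ℕ} : ((Fin N → Bool) → ℝ) → Prop
  | leaf (f : (Fin N → Bool) → ℝ) (hv : ∀ x, f x = 1 ∨ f x = -1) (hf : Shp c f) : RZ w s c f
  | mom (f : (Fin N → Bool) → ℝ) (hv : ∀ x, f x = 1 ∨ f x = -1)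
      (hf : ∑ S : Finset (Fin N), (S.card : ℝ) * ((S.card : ℝ) - 1) * coeff f S ^ 2 ≤
        Real.exp c * (influence f - (1 - coeff f ∅ ^ 2))) : RZ w s c f
  | her (f : (Fin N → Bool) → ℝ) (hv : ∀ x, f x = 1 ∨ f x = -1) (d : ℕ) (hd : Real.log d ≤ c) (bl : Fin N → Fin d)
      (hf : ∀ (j : Fin d) (A : Finset (Fin N)) (y : Fin N → Bool), (∀ i ∈ A, bl i = j) →
        specEntropy (Q.blk A y f) ≤ c * influence (Q.blk A y f)) : RZ w s c f
  | neg (f : (Fin N → Bool) → ℝ) (hf : RZ w s c f) : RZ w s c (fun x => - f x)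
  | gen (P : ℕ → Finset (Fin N)) (u : ℕ → (Fin N → Bool) → ℝ)
      (hP : ∀ i j, i ≠ j → Disjoint (P i) (P j)) (hd : ∀ i, Dp (P i) (u i)) (hu : ∀ i, RZ w s c (u i))
      (M : ℕ) (φ : Finset ℕ → Bool) (hφ : Hg c (pb u) M φ) :
      RZ w s c (fun x => if φ ((range M).filter (fun i => u i x = -1)) then -1 else 1)
  | arb (P : ℕ → Finset (Fin N)) (u : ℕ → (Fin N → Bool) → ℝ)
      (hP : ∀ i j, i ≠ j → Disjoint (P i) (P j)) (hd : ∀ i, Dp (P i) (u i)) (hu : ∀ i, RZ w s c (u i))
      (M : ℕ) (hs : ∑ i ∈ range M, (1 - coeff (u i) ∅ ^ 2) ≤ s) (φ : Finset ℕ → Bool) :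
      RZ w s c (fun x => if φ ((range M).filter (fun i => u i x = -1)) then -1 else 1)
  | half (P : ℕ → Finset (Fin N)) (u : ℕ → (Fin N → Bool) → ℝ)
      (hP : ∀ i j, i ≠ j → Disjoint (P i) (P j)) (hd : ∀ i, Dp (P i) (u i)) (hu : ∀ i, RZ w s c (u i))
      (M K D : ℕ) (L : ℝ) (hK : 1 ≤ K) (hL : 1 ≤ L) (hD : 1 ≤ D) (hc : Real.log (K * L * D) ≤ c)
      (b : ℕ → ℕ → ℝ) (θ : ℕ → ℝ) (cl : ℕ → ℕ) (ρ : ℕ → ℝ) (hcl : ∀ i, i < M → cl i < D)
      (hb : ∀ j v i, j < K → v < M → i < M → v ≠ i → cl v = cl i → ρ v ≤ ρ i → |b j i| ≤ L * |b j v|)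
      (φ : Finset ℕ → Bool)
      (hφ : ∀ U U' : Finset ℕ, U ⊆ range M → U' ⊆ range M →
        (∀ j, j < K → (θ j ≤ ∑ i ∈ U, b j i ↔ θ j ≤ ∑ i ∈ U', b j i)) → φ U = φ U') :
      RZ w s c (fun x => if φ ((range M).filter (fun i => u i x = -1)) then -1 else 1)
  | sym (P : ℕ → Finset (Fin N)) (u : ℕ → (Fin N → Bool) → ℝ)
      (hP : ∀ i j, i ≠ j → Disjoint (P i) (P j)) (hd : ∀ i, Dp (P i) (u i)) (hu : ∀ i, RZ w s c (u i))
      (M d : ℕ) (hd1 : 1 ≤ d) (hc : Real.log d ≤ c) (cl : ℕ → ℕ) (hcl : ∀ i, i < M → cl i < d)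
      (φ : Finset ℕ → Bool)
      (hφ : ∀ U U' : Finset ℕ, U ⊆ range M → U' ⊆ range M →
        (∀ j, j < d → (U.filter (fun i => cl i = j)).card = (U'.filter (fun i => cl i = j)).card) → φ U = φ U') :
      RZ w s c (fun x => if φ ((range M).filter (fun i => u i x = -1)) then -1 else 1)
  | tree (P : ℕ → Finset (Fin N)) (u : ℕ → (Fin N → Bool) → ℝ)
      (hP : ∀ i j, i ≠ j → Disjoint (P i) (P j)) (hd : ∀ i, Dp (P i) (u i)) (hu : ∀ i, RZ w s c (u i))
      (T : RK.Tree ℕ) (hT : T.rank + 2 ≤ w) :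
      RZ w s c (fun x => if T.eval (fun i => decide (u i x = -1)) then -1 else 1)
  | prog (P : ℕ → Finset (Fin N)) (u : ℕ → (Fin N → Bool) → ℝ)
      (hP : ∀ i j, i ≠ j → Disjoint (P i) (P j)) (hd : ∀ i, Dp (P i) (u i)) (hu : ∀ i, RZ w s c (u i))
      (n : ℕ) (σ : ℕ → Fin w → Bool → Fin w) (v : ℕ → Fin w → ℕ) (x0 : Fin w) (o : Fin w → Bool)
      (hr : ReadOnce σ v n x0) :
      RZ w s c (fun x => if o (run σ v x0 (fun i => decide (u i x = -1)) n) then -1 else 1)

/-- **Read-once compositions (min-entropy)**: the smallest class of functions `f : (Fin N → Bool) → ℝ` which contains every `f` with values `1`, `-1` such that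
(leaf) `Pm c f` (constant, or `Var f * log (1/f^(S)^2) ≤ c I(f)` for some `S ≠ ∅` with `f^(S) ≠ 0`), or
(ptf) `f` is a polynomial threshold function of degree `d`, `d^2 ≤ c` (`f x` is the sign of `g x` if `g x ≠ 0`, where `g` has degree at most `d` and is not identically `0`);
with `f` also (neg) `-f`, and with functions `u i` (`i : ℕ`) of pairwise disjoint sets `P i` of variables also
(una) every unate gate (monotone or antitone in each input) of the `u i`, `i < M`;
(dun) every gate `φ` of the `u i`, `i < M`, such that for the product measure with the biases of the `u i` and every `i < M` the absolute value of the mean of the derivative in the direction `i`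
is at least `e^(-c)` times the probability that the input `i` is pivotal;
(gen), (arb), (half), (sym), (tree), (prog) as in `RZ`. -/
inductive UZ (w : ℕ) (s c : ℝ) {N : ℕ} : ((Fin N → Bool) → ℝ) → Prop
  | leaf (f : (Fin N → Bool) → ℝ) (hv : ∀ x, f x = 1 ∨ f x = -1) (hf : Pm c f) : UZ w s c f
  | ptf (f g : (Fin N → Bool) → ℝ) (hv : ∀ x, f x = 1 ∨ f x = -1) (d : ℕ) (hd : (d : ℝ) ^ 2 ≤ c)
      (hg : ∀ S : Finset (Fin N), d < S.card → coeff g S = 0) (hfg : ∀ x, f x * g x = |g x|) (h0 : ∃ x, g x ≠ 0) : UZ w s c f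
  | neg (f : (Fin N → Bool) → ℝ) (hf : UZ w s c f) : UZ w s c (fun x => - f x)
  | una (P : ℕ → Finset (Fin N)) (u : ℕ → (Fin N → Bool) → ℝ)
      (hP : ∀ i j, i ≠ j → Disjoint (P i) (P j)) (hd : ∀ i, Dp (P i) (u i)) (hu : ∀ i, UZ w s c (u i))
      (M : ℕ) (φ : Finset ℕ → Bool)
      (hφ : ∀ i, i < M → (∀ U, U ⊆ range M → i ∉ U → φ U = true → φ (insert i U) = true) ∨
        (∀ U, U ⊆ range M → i ∉ U → φ (insert i U) = true → φ U = true)) :
      UZ w s c (fun x => if φ ((range M).filter (fun i => u i x = -1)) then -1 else 1)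
  | dun (P : ℕ → Finset (Fin N)) (u : ℕ → (Fin N → Bool) → ℝ)
      (hP : ∀ i j, i ≠ j → Disjoint (P i) (P j)) (hd : ∀ i, Dp (P i) (u i)) (hu : ∀ i, UZ w s c (u i))
      (M : ℕ) (φ : Finset ℕ → Bool) (hφ : ∀ i, i < M → Real.exp (-c) * pv (pb u) M φ i ≤ |dv (pb u) M φ i|) :
      UZ w s c (fun x => if φ ((range M).filter (fun i => u i x = -1)) then -1 else 1)
  | gen (P : ℕ → Finset (Fin N)) (u : ℕ → (Fin N → Bool) → ℝ)
      (hP : ∀ i j, i ≠ j → Disjoint (P i) (P j)) (hd : ∀ i, Dp (P i) (u i)) (hu : ∀ i, UZ w s c (u i))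
      (M : ℕ) (φ : Finset ℕ → Bool) (hφ : Hg c (pb u) M φ) :
      UZ w s c (fun x => if φ ((range M).filter (fun i => u i x = -1)) then -1 else 1)
  | arb (P : ℕ → Finset (Fin N)) (u : ℕ → (Fin N → Bool) → ℝ)
      (hP : ∀ i j, i ≠ j → Disjoint (P i) (P j)) (hd : ∀ i, Dp (P i) (u i)) (hu : ∀ i, UZ w s c (u i))
      (M : ℕ) (hs : ∑ i ∈ range M, (1 - coeff (u i) ∅ ^ 2) ≤ s) (φ : Finset ℕ → Bool) :
      UZ w s c (fun x => if φ ((range M).filter (fun i => u i x = -1)) then -1 else 1)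
  | half (P : ℕ → Finset (Fin N)) (u : ℕ → (Fin N → Bool) → ℝ)
      (hP : ∀ i j, i ≠ j → Disjoint (P i) (P j)) (hd : ∀ i, Dp (P i) (u i)) (hu : ∀ i, UZ w s c (u i))
      (M K D : ℕ) (L : ℝ) (hK : 1 ≤ K) (hL : 1 ≤ L) (hD : 1 ≤ D) (hc : Real.log (K * L * D) ≤ c)
      (b : ℕ → ℕ → ℝ) (θ : ℕ → ℝ) (cl : ℕ → ℕ) (ρ : ℕ → ℝ) (hcl : ∀ i, i < M → cl i < D)
      (hb : ∀ j v i, j < K → v < M → i < M → v ≠ i → cl v = cl i → ρ v ≤ ρ i → |b j i| ≤ L * |b j v|)
      (φ : Finset ℕ → Bool)
      (hφ : ∀ U U' : Finset ℕ, U ⊆ range M → U' ⊆ range M →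
        (∀ j, j < K → (θ j ≤ ∑ i ∈ U, b j i ↔ θ j ≤ ∑ i ∈ U', b j i)) → φ U = φ U') :
      UZ w s c (fun x => if φ ((range M).filter (fun i => u i x = -1)) then -1 else 1)
  | sym (P : ℕ → Finset (Fin N)) (u : ℕ → (Fin N → Bool) → ℝ)
      (hP : ∀ i j, i ≠ j → Disjoint (P i) (P j)) (hd : ∀ i, Dp (P i) (u i)) (hu : ∀ i, UZ w s c (u i))
      (M d : ℕ) (hd1 : 1 ≤ d) (hc : Real.log d ≤ c) (cl : ℕ → ℕ) (hcl : ∀ i, i < M → cl i < d)
      (φ : Finset ℕ → Bool)
      (hφ : ∀ U U' : Finset ℕ, U ⊆ range M → U' ⊆ range M →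
        (∀ j, j < d → (U.filter (fun i => cl i = j)).card = (U'.filter (fun i => cl i = j)).card) → φ U = φ U') :
      UZ w s c (fun x => if φ ((range M).filter (fun i => u i x = -1)) then -1 else 1)
  | tree (P : ℕ → Finset (Fin N)) (u : ℕ → (Fin N → Bool) → ℝ)
      (hP : ∀ i j, i ≠ j → Disjoint (P i) (P j)) (hd : ∀ i, Dp (P i) (u i)) (hu : ∀ i, UZ w s c (u i))
      (T : RK.Tree ℕ) (hT : T.rank + 2 ≤ w) :
      UZ w s c (fun x => if T.eval (fun i => decide (u i x = -1)) then -1 else 1)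
  | prog (P : ℕ → Finset (Fin N)) (u : ℕ → (Fin N → Bool) → ℝ)
      (hP : ∀ i j, i ≠ j → Disjoint (P i) (P j)) (hd : ∀ i, Dp (P i) (u i)) (hu : ∀ i, UZ w s c (u i))
      (n : ℕ) (σ : ℕ → Fin w → Bool → Fin w) (v : ℕ → Fin w → ℕ) (x0 : Fin w) (o : Fin w → Bool)
      (hr : ReadOnce σ v n x0) :
      UZ w s c (fun x => if o (run σ v x0 (fun i => decide (u i x = -1)) n) then -1 else 1)

end Pool.Agent.MP3145b1.ZC
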