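import Pool.Agent.Lib.MP_3145b1_co.ZC.Def

/-!
# MP_3145b1_co, final composition theorems: the conditions on the gates
-/

set_option autoImplicit false

namespace Pool.Agent.MP3145b1.ZC

open Finset Pool.Agent.MP3145b1 Pool.Agent.MP3145b1.RC Pool.Agent.MP3145b1.RD Pool.Agent.MP3145b1.RT Pool.Agent.MP3145b1.UM
  Pool.Agent.MP3145b1.LD Pool.Agent.MP3145b1.AG

theorem Ph_tw (φ : Finset ℕ → Bool) (U : Finset ℕ) : Ph φ (∑ i ∈ U, tw i) = gv φ U := by
  have e : ∑ i ∈ U, tw i = ((∑ i ∈ U, 2 ^ i : ℕ) : ℝ) := by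
    unfold tw
    push_cast
    rfl
  rw [Ph, e, Nat.floor_natCast, Finset.toFinset_bitIndices_sum_two_pow, gv]

theorem co_gc (p : ℕ → ℝ) (φ : Finset ℕ → Bool) (J U T : Finset ℕ) (hT : T ⊆ J) (hU : Disjoint U J) :
    Co tw p J T (Ph φ) (∑ i ∈ U, tw i) = gc p φ J U T := by
  unfold Co Av gc
  refine Finset.sum_congr rfl fun S hS => ?_
  have hS' : S ⊆ J \ T := Finset.mem_powerset.1 hS
  congr 1
  unfold Df
  refine Finset.sum_congr rfl fun R hR => ?_
  have hR' : R ⊆ T := Finset.mem_powerset.1 hR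
  congr 1
  have d1 : Disjoint U S := Finset.disjoint_of_subset_right (hS'.trans Finset.sdiff_subset) hU
  have d2 : Disjoint (U ∪ S) R := by
    rw [Finset.disjoint_union_left]
    refine ⟨Finset.disjoint_of_subset_right (hR'.trans hT) hU, ?_⟩
    rw [Finset.disjoint_left]
    intro i hi hi'
    exact (Finset.mem_sdiff.1 (hS' hi)).2 (hR' hi')
  rw [← Finset.sum_union d1, ← Finset.sum_union d2, Ph_tw]

theorem Ti_nonneg {p : ℕ → ℝ} (hp : ∀ i, 0 ≤ p i ∧ p i ≤ 1) (a : ℕ → ℝ) (J : Finset ℕ) (F : ℝ → ℝ) (z : ℝ) :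
    0 ≤ Ti a p J F z := by
  unfold Ti
  exact Finset.sum_nonneg fun T _ => mul_nonneg (Nat.cast_nonneg _) (mul_nonneg (wt_nonneg hp T) (sq_nonneg _))

theorem Hd_mono {c c' : ℝ} {p : ℕ → ℝ} {M : ℕ} {φ : Finset ℕ → Bool} (hp : ∀ i, 0 ≤ p i ∧ p i ≤ 1)
    (hc : c ≤ c') (h : Hd c p M φ) : Hd c' p M φ := by
  intro J U hJ hU
  exact (h J U hJ hU).trans (mul_le_mul_of_nonneg_right hc (Ti_nonneg hp _ _ _ _))

theorem Hd_Hg {c : ℝ} {p : ℕ → ℝ} {M : ℕ} {φ : Finset ℕ → Bool} (h : Hg c p M φ) : Hd c p M φ := by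
  intro J U hJ hU
  have hd : Disjoint U J := by
    rw [Finset.disjoint_left]
    intro i hi hi'
    exact (Finset.mem_sdiff.1 (hU hi)).2 hi'
  have h1 := h J U hJ hU
  unfold Hs Ti
  have e1 : ∑ T ∈ J.powerset.erase ∅, wt p T * hh (Co tw p J T (Ph φ) (∑ i ∈ U, tw i) ^ 2) =
      ∑ T ∈ J.powerset.erase ∅, wt p T * hh (gc p φ J U T ^ 2) :=
    Finset.sum_congr rfl fun T hT => by
      rw [co_gc p φ J U T (Finset.mem_powerset.1 (Finset.mem_of_mem_erase hT)) hd]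
  have e2 : ∑ T ∈ J.powerset, (T.card : ℝ) * (wt p T * Co tw p J T (Ph φ) (∑ i ∈ U, tw i) ^ 2) =
      ∑ T ∈ J.powerset, (T.card : ℝ) * (wt p T * gc p φ J U T ^ 2) :=
    Finset.sum_congr rfl fun T hT => by rw [co_gc p φ J U T (Finset.mem_powerset.1 hT) hd]
  rw [e1, e2]
  exact h1

theorem QQ_pv (p : ℕ → ℝ) (M : ℕ) (φ : Finset ℕ → Bool) (i : ℕ) (hi : i < M) :
    QQ tw p (range M) (Ph φ) 0 i = pv p M φ i := by
  have hi' : i ∈ range M := Finset.mem_range.2 hi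
  have e : ∀ T ∈ ((range M).erase i).powerset,
      Co tw p (range M) (insert i T) (Ph φ) 0 = Co tw p ((range M).erase i) T (hA (tw i) (Ph φ)) 0 := by
    intro T hT
    have h := Co_insert_mem tw p ((range M).erase i) T i (Finset.notMem_erase i (range M))
      (Finset.mem_powerset.1 hT) (Ph φ) 0
    rw [Finset.insert_erase hi'] at h
    rw [Co_hA]
    exact h
  have hQ : QQ tw p (range M) (Ph φ) 0 i = Av tw p ((range M).erase i) (fun y => hA (tw i) (Ph φ) y ^ 2) 0 := by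
    unfold QQ
    rw [← (rTPar tw p ((range M).erase i) ∅ (hA (tw i) (Ph φ)) 0 (Finset.empty_subset _)).1]
    exact Finset.sum_congr rfl fun T hT => by rw [e T hT]
  rw [hQ]
  unfold Av pv
  refine Finset.sum_congr rfl fun S hS => ?_
  congr 1
  have hiS : i ∉ S := fun h0 => (Finset.mem_erase.1 (Finset.mem_powerset.1 hS h0)).1 rfl
  have e1 : (0 : ℝ) + ∑ j ∈ S, tw j + tw i = ∑ j ∈ insert i S, tw j := by
    rw [Finset.sum_insert hiS]
    ring
  show ((Ph φ (0 + ∑ j ∈ S, tw j) - Ph φ (0 + ∑ j ∈ S, tw j + tw i)) / 2) ^ 2 = _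
  rw [e1, zero_add, Ph_tw, Ph_tw]
  unfold gv
  cases φ S <;> cases φ (insert i S) <;> norm_num

theorem Co_dv (p : ℕ → ℝ) (M : ℕ) (φ : Finset ℕ → Bool) (i : ℕ) (hi : i < M) :
    Co tw p (range M) {i} (Ph φ) 0 = dv p M φ i := by
  have hi' : i ∈ range M := Finset.mem_range.2 hi
  have e : Co tw p (range M) {i} (Ph φ) 0 = Av tw p ((range M).erase i) (hA (tw i) (Ph φ)) 0 := by
    have h := Co_insert_mem tw p ((range M).erase i) ∅ i (Finset.notMem_erase i (range M))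
      (Finset.empty_subset _) (Ph φ) 0
    rw [Finset.insert_erase hi'] at h
    have h2 : insert i (∅ : Finset ℕ) = {i} := rfl
    rw [h2] at h
    rw [← Co_empty, Co_hA]
    exact h
  rw [e]
  unfold Av dv
  refine Finset.sum_congr rfl fun S hS => ?_
  congr 1
  have hiS : i ∉ S := fun h0 => (Finset.mem_erase.1 (Finset.mem_powerset.1 hS h0)).1 rfl
  have e1 : (0 : ℝ) + ∑ j ∈ S, tw j + tw i = ∑ j ∈ insert i S, tw j := by
    rw [Finset.sum_insert hiS]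
    ring
  show (Ph φ (0 + ∑ j ∈ S, tw j) - Ph φ (0 + ∑ j ∈ S, tw j + tw i)) / 2 = _
  rw [e1, zero_add, Ph_tw, Ph_tw]

/-- the condition of (dun) -/
theorem Du_of {c c' : ℝ} {p : ℕ → ℝ} {M : ℕ} {φ : Finset ℕ → Bool} (hc : c ≤ c')
    (h : ∀ i, i < M → Real.exp (-c) * pv p M φ i ≤ |dv p M φ i|) : Du c' p M φ := by
  intro i hi
  rw [QQ_pv p M φ i hi, Co_dv p M φ i hi]
  have h1 := h i hi
  have h2 : pv p M φ i ≤ Real.exp c * |dv p M φ i| := by
    have h3 := mul_le_mul_of_nonneg_left h1 (Real.exp_pos c).le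
    rwa [← mul_assoc, ← Real.exp_add, add_neg_cancel, Real.exp_zero, one_mul] at h3
  exact h2.trans (mul_le_mul_of_nonneg_right (Real.exp_le_exp.2 hc) (abs_nonneg _))

end Pool.Agent.MP3145b1.ZC
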